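import Pool.Agent.H34.PS.Targets

/-!
Board psq_modules (MP_669880_nt), row LB: upper bound for a series with periodic coefficients of
mean zero; with a summation by parts lemma.
-/

set_option autoImplicit false

open Finset Pool.Agent.H34.PS

namespace Pool.Agent.H1.PSQ

/-- summation by parts: antitone nonnegative weights, bounded partial sums -/
theorem abel (a g : ℕ → ℝ) (ha : ∀ n, a (n + 1) ≤ a n) (h0 : ∀ n, 0 ≤ a n) (B : ℝ)
    (hB : ∀ k, ∑ i ∈ range k, g i ≤ B) (k : ℕ) : ∑ i ∈ range k, a i * g i ≤ a 0 * B := by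
  have h1 : ∀ k, ∑ i ∈ range k, a i * g i ≤ (a 0 - a k) * B + a k * ∑ i ∈ range k, g i := by
    intro k
    induction k with
    | zero => simp
    | succ k ih =>
      rw [sum_range_succ, sum_range_succ]
      have h2 := mul_nonneg (sub_nonneg.2 (ha k)) (sub_nonneg.2 (hB (k + 1)))
      rw [sum_range_succ] at h2
      nlinarith
  have h3 := mul_le_mul_of_nonneg_left (hB k) (h0 k)
  have h4 := h1 k
  nlinarith

/-- a full period, starting anywhere -/
theorem period_sum (f : ℕ → ℝ) (N : ℕ) (hf : ∀ n, f (n + N) = f n)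
    (h0 : ∑ n ∈ range N, f n = 0) (s : ℕ) : ∑ n ∈ range N, f (s + n) = 0 := by
  induction s with
  | zero => simpa using h0
  | succ s ih =>
    have h1 := sum_range_succ (fun n => f (s + n)) N
    have h2 := sum_range_succ' (fun n => f (s + n)) N
    rw [h1, ih] at h2
    simp only [zero_add, add_zero] at h2
    rw [hf s] at h2
    have h3 : ∑ n ∈ range N, f (s + 1 + n) = ∑ n ∈ range N, f (s + (n + 1)) :=
      sum_congr rfl fun n _ => by rw [show s + 1 + n = s + (n + 1) by ring]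
    rw [h3]
    linarith

theorem partial_sum (f : ℕ → ℝ) (N : ℕ) (hN : 1 ≤ N) (h1 : ∀ n, |f n| ≤ 1)
    (hf : ∀ n, f (n + N) = f n) (h0 : ∑ n ∈ range N, f n = 0) (s k : ℕ) :
    |∑ n ∈ range k, f (s + n)| ≤ N := by
  induction k using Nat.strong_induction_on with
  | _ k ih =>
    by_cases hk : k < N
    · refine (abs_sum_le_sum_abs _ _).trans ?_
      refine (sum_le_sum fun n _ => h1 (s + n)).trans ?_
      rw [sum_const, card_range, nsmul_eq_mul, mul_one]
      exact_mod_cast hk.le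
    · push Not at hk
      obtain ⟨j, rfl⟩ := Nat.exists_eq_add_of_le hk
      rw [sum_range_add, period_sum f N hf h0 s, zero_add]
      have h2 : ∑ x ∈ range j, f (s + (N + x)) = ∑ x ∈ range j, f (s + x) :=
        sum_congr rfl fun x _ => by rw [show s + (N + x) = s + x + N by ring, hf]
      rw [h2]
      exact ih j (by omega)

theorem sum_inv_le (N : ℕ) : ∑ n ∈ range N, (1 : ℝ) / ((n : ℝ) + 1) ≤ 1 + Real.log N := by
  have h := harmonic_le_one_add_log N
  unfold harmonic at h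
  push_cast at h
  simpa [one_div] using h

theorem pf_LB : T_LB := by
  intro f N hN h1 hf h0 σ hσ
  have hs : Summable fun n : ℕ => f n * (n : ℝ) ^ (-σ) := by
    have h2 : Summable fun n : ℕ => (n : ℝ) ^ (-σ) := Real.summable_nat_rpow.2 (by linarith)
    refine Summable.of_norm_bounded h2 fun n => ?_
    have h3 : 0 ≤ (n : ℝ) ^ (-σ) := Real.rpow_nonneg (Nat.cast_nonneg n) _
    rw [norm_mul, Real.norm_eq_abs, Real.norm_eq_abs, abs_of_nonneg h3]
    calc |f n| * (n : ℝ) ^ (-σ) ≤ 1 * (n : ℝ) ^ (-σ) := mul_le_mul_of_nonneg_right (h1 n) h3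
      _ = _ := one_mul _
  have hN0 : (1 : ℝ) ≤ (N : ℝ) := by exact_mod_cast hN
  refine le_of_tendsto hs.hasSum.tendsto_sum_nat ?_
  filter_upwards [Filter.eventually_ge_atTop (N + 1)] with M hM
  obtain ⟨k, rfl⟩ := Nat.exists_eq_add_of_le hM
  rw [sum_range_add]
  have hA : ∑ n ∈ range (N + 1), f n * (n : ℝ) ^ (-σ) ≤ 1 + Real.log N := by
    rw [sum_range_succ']
    have hz : f 0 * ((0 : ℕ) : ℝ) ^ (-σ) = 0 := by
      rw [Nat.cast_zero, Real.zero_rpow (by linarith), mul_zero]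
    rw [hz, add_zero]
    refine le_trans ?_ (sum_inv_le N)
    refine sum_le_sum fun n _ => ?_
    have h4 : (1 : ℝ) ≤ ((n + 1 : ℕ) : ℝ) := by push_cast; linarith [Nat.cast_nonneg (α := ℝ) n]
    have h3 : 0 ≤ ((n + 1 : ℕ) : ℝ) ^ (-σ) := Real.rpow_nonneg (Nat.cast_nonneg _) _
    calc f (n + 1) * ((n + 1 : ℕ) : ℝ) ^ (-σ) ≤ 1 * ((n + 1 : ℕ) : ℝ) ^ (-σ) :=
          mul_le_mul_of_nonneg_right (le_of_abs_le (h1 (n + 1))) h3
      _ = ((n + 1 : ℕ) : ℝ) ^ (-σ) := one_mul _
      _ ≤ ((n + 1 : ℕ) : ℝ) ^ (-1 : ℝ) := Real.rpow_le_rpow_of_exponent_le h4 (by linarith)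
      _ = 1 / ((n : ℝ) + 1) := by
          rw [Real.rpow_neg_one, one_div]
          push_cast
          rfl
  have hB : ∑ x ∈ range k, f (N + 1 + x) * ((N + 1 + x : ℕ) : ℝ) ^ (-σ) ≤ 1 := by
    have h5 := abel (fun i => ((N + 1 + i : ℕ) : ℝ) ^ (-σ)) (fun i => f (N + 1 + i)) ?_ ?_ N ?_ k
    · simp only [add_zero] at h5
      have h6 : ∑ x ∈ range k, f (N + 1 + x) * ((N + 1 + x : ℕ) : ℝ) ^ (-σ) =
          ∑ x ∈ range k, ((N + 1 + x : ℕ) : ℝ) ^ (-σ) * f (N + 1 + x) :=
        sum_congr rfl fun x _ => mul_comm _ _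
      rw [h6]
      refine h5.trans ?_
      have h7 : (1 : ℝ) ≤ ((N + 1 : ℕ) : ℝ) := by push_cast; linarith
      calc ((N + 1 : ℕ) : ℝ) ^ (-σ) * (N : ℝ) ≤ ((N + 1 : ℕ) : ℝ) ^ (-1 : ℝ) * (N : ℝ) :=
            mul_le_mul_of_nonneg_right (Real.rpow_le_rpow_of_exponent_le h7 (by linarith))
              (by linarith)
        _ ≤ ((N + 1 : ℕ) : ℝ) ^ (-1 : ℝ) * ((N + 1 : ℕ) : ℝ) := by
            refine mul_le_mul_of_nonneg_left ?_ (Real.rpow_nonneg (by linarith) _)
            push_cast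
            linarith
        _ = 1 := by
            rw [Real.rpow_neg_one]
            exact inv_mul_cancel₀ (by linarith)
    · intro n
      have h8 : (0 : ℝ) < ((N + 1 + n : ℕ) : ℝ) := by positivity
      refine Real.rpow_le_rpow_of_nonpos h8 ?_ (by linarith)
      push_cast
      linarith
    · intro n
      exact Real.rpow_nonneg (Nat.cast_nonneg _) _
    · intro j
      exact le_of_abs_le (partial_sum f N hN h1 hf h0 (N + 1) j)
  linarith

end Pool.Agent.H1.PSQ
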