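import Pool.Agent.H34.PS.Targets

/-!
Board psq_modules (MP_669880_nt): the divisor sums of the quadratic characters, multiplicativity
(for rows RB, RC).
-/

set_option autoImplicit false

open Finset Pool.Agent.H34.PS

namespace Pool.Agent.H1.PSQ

theorem chi_mul (D : ℤ) (m n : ℕ) : chi D (m * n) = chi D m * chi D n := by
  unfold chi
  by_cases hm : m % 2 = 1
  · by_cases hn : n % 2 = 1
    · have h : (m * n) % 2 = 1 := by rw [Nat.mul_mod, hm, hn]
      rw [if_pos h, if_pos hm, if_pos hn, jacobiSym.mul_right' D (by omega) (by omega)]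
      push_cast
      ring
    · have h : ¬ (m * n) % 2 = 1 := by
        have : n % 2 = 0 := by omega
        rw [Nat.mul_mod, this]
        simp
      rw [if_neg h, if_neg hn, mul_zero]
  · have h : ¬ (m * n) % 2 = 1 := by
      have : m % 2 = 0 := by omega
      rw [Nat.mul_mod, this]
      simp
    rw [if_neg h, if_neg hm, zero_mul]

theorem chi_one (D : ℤ) : chi D 1 = 1 := by
  unfold chi
  simp

theorem chi_zero (D : ℤ) : chi D 0 = 0 := by
  unfold chi
  simp

theorem abs_chi_le (D : ℤ) (n : ℕ) : |chi D n| ≤ 1 := by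
  unfold chi
  split_ifs
  · rcases jacobiSym.trichotomy D n with h | h | h <;> rw [h] <;> norm_num
  · norm_num

theorem chi_pow (D : ℤ) (p k : ℕ) : chi D (p ^ k) = chi D p ^ k := by
  induction k with
  | zero => simpa using chi_one D
  | succ k ih => rw [pow_succ, chi_mul, ih, pow_succ]

/-- the divisor sum -/
noncomputable def F (D : ℤ) (n : ℕ) : ℝ := ∑ t ∈ n.divisors, chi D t

/-- the character as an arithmetic function -/
noncomputable def chiA (D : ℤ) : ArithmeticFunction ℝ := ⟨chi D, chi_zero D⟩

theorem F_coprime (D : ℤ) {m n : ℕ} (h : m.Coprime n) : F D (m * n) = F D m * F D n := by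
  have h1 : (chiA D).IsMultiplicative := by
    refine ⟨chi_one D, fun {a b} _ => chi_mul D a b⟩
  have h2 := (ArithmeticFunction.isMultiplicative_zeta.natCast (R := ℝ)).mul h1
  have h3 := h2.map_mul_of_coprime h
  rw [ArithmeticFunction.coe_zeta_mul_apply, ArithmeticFunction.coe_zeta_mul_apply,
    ArithmeticFunction.coe_zeta_mul_apply] at h3
  exact h3

theorem F_pow (D : ℤ) {p : ℕ} (hp : p.Prime) (k : ℕ) :
    F D (p ^ k) = ∑ i ∈ range (k + 1), chi D p ^ i := by
  unfold F
  rw [Nat.sum_divisors_prime_pow hp]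
  exact sum_congr rfl fun i _ => chi_pow D p i

theorem geom_nonneg (x : ℝ) (hx : |x| ≤ 1) (k : ℕ) : 0 ≤ ∑ i ∈ range k, x ^ i := by
  rcases eq_or_lt_of_le (le_of_abs_le hx) with h | h
  · subst h
    simp
  · have h1 := geom_sum_mul_neg x k
    have h2 : x ^ k ≤ 1 := by
      have h3 : |x ^ k| ≤ 1 := by
        rw [abs_pow]
        exact pow_le_one₀ (abs_nonneg x) hx
      exact le_of_abs_le h3
    have h4 : 0 < 1 - x := by linarith
    by_contra h5
    push Not at h5
    have := mul_neg_of_neg_of_pos h5 h4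
    linarith

theorem F_one (D : ℤ) : F D 1 = 1 := by
  unfold F
  simp [chi_one]

theorem F_zero (D : ℤ) : F D 0 = 0 := by
  unfold F
  simp

theorem F_nonneg (D : ℤ) (n : ℕ) : 0 ≤ F D n := by
  induction n using Nat.recOnPosPrimePosCoprime with
  | prime_pow p n hp hn =>
    rw [F_pow D hp]
    exact geom_nonneg _ (abs_chi_le D p) _
  | zero => exact (F_zero D).ge
  | one => exact (F_one D).ge.trans' zero_le_one
  | coprime a b ha hb hab iha ihb =>
    rw [F_coprime D hab]
    exact mul_nonneg iha ihb

theorem op_two_mul {e : ℕ} (he : e ≠ 0) : op (2 * e) = op e := by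
  unfold op
  have h : (2 * e).factorization 2 = e.factorization 2 + 1 := by
    rw [Nat.factorization_mul two_ne_zero he, Finsupp.add_apply,
      Nat.Prime.factorization_self Nat.prime_two, add_comm]
  rw [h, pow_succ, mul_comm 2 e, Nat.mul_div_mul_right _ _ two_pos]

theorem op_odd {e : ℕ} (he : e % 2 = 1) : op e = e := by
  unfold op
  have h : e.factorization 2 = 0 := Nat.factorization_eq_zero_of_not_dvd (by omega)
  rw [h, pow_zero, Nat.div_one]

end Pool.Agent.H1.PSQ
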