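import Pool.Agent.H1.PSQ.MUL

/-!
Board psq_modules (MP_669880_nt), row RB: the number of square roots, coprime arguments.
-/

set_option autoImplicit false

open Finset Pool.Agent.H34.PS

namespace Pool.Agent.H1.PSQ

theorem mem_rho {D d w : ℕ} : w ∈ (range d).filter (fun w => w ^ 2 ≡ D [MOD d]) ↔
    w < d ∧ w ^ 2 ≡ D [MOD d] := by
  rw [mem_filter, mem_range]

theorem rho_mul_le (D : ℕ) {m n : ℕ} (h : m.Coprime n) (hm : 0 < m) (hn : 0 < n) :
    rho D (m * n) ≤ rho D m * rho D n := by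
  unfold rho
  rw [← card_product]
  refine card_le_card_of_injOn (fun w => (w % m, w % n)) ?_ ?_
  · intro w hw
    rw [mem_coe, mem_rho] at hw
    rw [mem_coe, mem_product]
    refine ⟨mem_rho.2 ⟨Nat.mod_lt _ hm, ?_⟩, mem_rho.2 ⟨Nat.mod_lt _ hn, ?_⟩⟩
    · exact ((Nat.mod_modEq w m).pow 2).trans (hw.2.of_dvd (dvd_mul_right m n))
    · exact ((Nat.mod_modEq w n).pow 2).trans (hw.2.of_dvd (dvd_mul_left n m))
  · intro w hw w' hw' hww
    rw [mem_coe, mem_rho] at hw hw'
    rw [Prod.mk.injEq] at hww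
    have h1 : w ≡ w' [MOD m * n] := (Nat.modEq_and_modEq_iff_modEq_mul h).1 ⟨hww.1, hww.2⟩
    exact Nat.ModEq.eq_of_lt_of_lt h1 hw.1 hw'.1

theorem rho_one (D : ℕ) : rho D 1 = 1 := by
  unfold rho
  have : (range 1).filter (fun w => w ^ 2 ≡ D [MOD 1]) = range 1 := by
    refine filter_true_of_mem fun w _ => Nat.modEq_one
  rw [this, card_range]

theorem dvd_mul_of {D d w w0 : ℕ} (h : w ^ 2 ≡ D [MOD d]) (h0 : w0 ^ 2 ≡ D [MOD d]) :
    (d : ℤ) ∣ ((w : ℤ) - w0) * ((w : ℤ) + w0) := by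
  have h1 : w0 ^ 2 ≡ w ^ 2 [MOD d] := h0.trans h.symm
  have h2 := (Nat.modEq_iff_dvd.1 h1)
  push_cast at h2
  have h3 : ((w : ℤ) - w0) * ((w : ℤ) + w0) = (w : ℤ) ^ 2 - (w0 : ℤ) ^ 2 := by ring
  rw [h3]
  exact h2

/-- odd primes: at most two square roots -/
theorem rho_pow_le_two (D : ℕ) {p : ℕ} (hp : p.Prime) (h2 : p ≠ 2) (hD : ¬ p ∣ D) {k : ℕ}
    (hk : 0 < k) : rho D (p ^ k) ≤ 2 := by
  by_contra hc
  have hne : ((range (p ^ k)).filter (fun w => w ^ 2 ≡ D [MOD p ^ k])).Nonempty := by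
    rw [← card_pos]
    unfold rho at hc
    omega
  obtain ⟨w0, hw0⟩ := hne
  rw [mem_rho] at hw0
  refine hc ?_
  unfold rho
  have hsub : (range (p ^ k)).filter (fun w => w ^ 2 ≡ D [MOD p ^ k]) ⊆ {w0, p ^ k - w0} := by
    intro w hw
    rw [mem_rho] at hw
    have h3 := dvd_mul_of hw.2 hw0.2
    push_cast at h3
    have hpi : Prime (p : ℤ) := Nat.prime_iff_prime_int.1 hp
    have hndvd : ¬ (p : ℤ) ∣ (w0 : ℤ) := by
      intro h
      rw [Int.natCast_dvd_natCast] at h
      have h4 : p ∣ w0 ^ 2 := dvd_pow h two_ne_zero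
      have h5 : w0 ^ 2 ≡ D [MOD p] := hw0.2.of_dvd (dvd_pow_self p hk.ne')
      exact hD ((h5.dvd_iff dvd_rfl).1 h4)
    have hnot : ¬ ((p : ℤ) ∣ (w : ℤ) - w0 ∧ (p : ℤ) ∣ (w : ℤ) + w0) := by
      rintro ⟨ha, hb⟩
      have h6 : (p : ℤ) ∣ 2 * (w0 : ℤ) := by
        have := dvd_sub hb ha
        have h7 : ((w : ℤ) + w0) - ((w : ℤ) - w0) = 2 * w0 := by ring
        rwa [h7] at this
      rcases hpi.dvd_or_dvd h6 with h8 | h8
      · have h9 : p ∣ 2 := by exact_mod_cast h8
        exact h2 ((Nat.prime_dvd_prime_iff_eq hp Nat.prime_two).1 h9)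
      · exact hndvd h8
    rw [mem_insert, mem_singleton]
    by_cases ha : (p : ℤ) ∣ (w : ℤ) - w0
    · have hb : ¬ (p : ℤ) ∣ (w : ℤ) + w0 := fun h => hnot ⟨ha, h⟩
      left
      have hco : IsCoprime ((p : ℤ) ^ k) ((w : ℤ) + w0) :=
        ((Prime.coprime_iff_not_dvd hpi).2 hb).pow_left
      have h10 : ((p : ℤ) ^ k) ∣ (w : ℤ) - w0 := hco.dvd_of_dvd_mul_right h3
      have h11 : w0 ≡ w [MOD p ^ k] := by
        rw [Nat.modEq_iff_dvd]
        push_cast
        exact h10
      exact (Nat.ModEq.eq_of_lt_of_lt h11 hw0.1 hw.1).symm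
    · right
      have hco : IsCoprime ((p : ℤ) ^ k) ((w : ℤ) - w0) :=
        ((Prime.coprime_iff_not_dvd hpi).2 ha).pow_left
      have h10 : ((p : ℤ) ^ k) ∣ (w : ℤ) + w0 := hco.dvd_of_dvd_mul_left h3
      have h11 : p ^ k ∣ w + w0 := by
        have : ((p ^ k : ℕ) : ℤ) ∣ ((w + w0 : ℕ) : ℤ) := by
          push_cast
          exact h10
        exact Int.natCast_dvd_natCast.1 this
      have hw0pos : 0 < w0 := by
        rcases Nat.eq_zero_or_pos w0 with h | h
        · exfalso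
          apply hndvd
          rw [h]
          simp
        · exact h
      obtain ⟨c, hc⟩ := h11
      have h12 : c = 1 := by
        have hcpos : c ≠ 0 := by
          rintro rfl
          omega
        have : c < 2 := by
          by_contra hcc
          push Not at hcc
          have := Nat.mul_le_mul_left (p ^ k) hcc
          omega
        omega
      subst h12
      omega
  exact (card_le_card hsub).trans card_le_two

/-- the prime two: at most four square roots -/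
theorem rho_two_pow_le (D : ℕ) (k : ℕ) (hD : k = 0 ∨ D % 2 = 1) : rho D (2 ^ k) ≤ 4 := by
  rcases Nat.eq_zero_or_pos k with hk | hk
  · subst hk
    rw [pow_zero, rho_one]
    omega
  have hD' : D % 2 = 1 := by omega
  clear hD
  obtain ⟨j, rfl⟩ : ∃ j, k = j + 1 := ⟨k - 1, by omega⟩
  by_contra hc
  have hne : ((range (2 ^ (j + 1))).filter (fun w => w ^ 2 ≡ D [MOD 2 ^ (j + 1)])).Nonempty := by
    rw [← card_pos]
    unfold rho at hc
    omega
  obtain ⟨w0, hw0⟩ := hne
  rw [mem_rho] at hw0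
  refine hc ?_
  unfold rho
  have hodd : ∀ w, w ^ 2 ≡ D [MOD 2 ^ (j + 1)] → w % 2 = 1 := by
    intro w hw
    have h1 : w ^ 2 ≡ D [MOD 2] := hw.of_dvd (dvd_pow_self 2 (by omega))
    unfold Nat.ModEq at h1
    rw [hD'] at h1
    by_contra h
    have h3 : w % 2 = 0 := by omega
    rw [pow_two, Nat.mul_mod, h3] at h1
    simp at h1
  have hpos : 0 < 2 ^ j := by positivity
  have h2j : 2 ^ (j + 1) = 2 * 2 ^ j := by rw [pow_succ]; ring
  set r := w0 % 2 ^ j with hr
  set r' := (2 ^ j - r) % 2 ^ j with hr'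
  have hsub : (range (2 ^ (j + 1))).filter (fun w => w ^ 2 ≡ D [MOD 2 ^ (j + 1)]) ⊆
      {r, r + 2 ^ j, r', r' + 2 ^ j} := by
    intro w hw
    rw [mem_rho] at hw
    have ho := hodd w hw.2
    have ho0 := hodd w0 hw0.2
    have h3 := dvd_mul_of hw.2 hw0.2
    have hkey : w % 2 ^ j = r ∨ w % 2 ^ j = r' := by
      by_cases h4 : (4 : ℤ) ∣ (w : ℤ) - w0
      · left
        obtain ⟨u, hu⟩ : ∃ u : ℤ, (w : ℤ) + w0 = 2 * u := ⟨((w : ℤ) + w0) / 2, by omega⟩
        have hu2 : ¬ (2 : ℤ) ∣ u := by omega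
        have h5 : ((2 : ℤ) ^ j) ∣ ((w : ℤ) - w0) * u := by
          rw [hu] at h3
          push_cast [pow_succ] at h3
          obtain ⟨c, hc⟩ := h3
          refine ⟨c, ?_⟩
          nlinarith
        have hco : IsCoprime ((2 : ℤ) ^ j) u :=
          ((Prime.coprime_iff_not_dvd Int.prime_two).2 hu2).pow_left
        have h6 : ((2 : ℤ) ^ j) ∣ (w : ℤ) - w0 := hco.dvd_of_dvd_mul_right h5
        have h7 : w0 ≡ w [MOD 2 ^ j] := by
          rw [Nat.modEq_iff_dvd]
          push_cast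
          exact h6
        exact h7.symm
      · right
        obtain ⟨u, hu⟩ : ∃ u : ℤ, (w : ℤ) - w0 = 2 * u := ⟨((w : ℤ) - w0) / 2, by omega⟩
        have hu2 : ¬ (2 : ℤ) ∣ u := by omega
        have h5 : ((2 : ℤ) ^ j) ∣ ((w : ℤ) + w0) * u := by
          rw [hu] at h3
          push_cast [pow_succ] at h3
          obtain ⟨c, hc⟩ := h3
          refine ⟨c, ?_⟩
          nlinarith
        have hco : IsCoprime ((2 : ℤ) ^ j) u :=
          ((Prime.coprime_iff_not_dvd Int.prime_two).2 hu2).pow_left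
        have h6 : ((2 : ℤ) ^ j) ∣ (w : ℤ) + w0 := hco.dvd_of_dvd_mul_right h5
        have h7 : 2 ^ j ∣ w + w0 := by
          have : ((2 ^ j : ℕ) : ℤ) ∣ ((w + w0 : ℕ) : ℤ) := by
            push_cast
            exact h6
          exact Int.natCast_dvd_natCast.1 this
        have hrlt : r < 2 ^ j := Nat.mod_lt _ hpos
        have h8 : w + w0 ≡ (2 ^ j - r) + w0 [MOD 2 ^ j] := by
          have h9 : w + w0 ≡ 0 [MOD 2 ^ j] := (Nat.modEq_zero_iff_dvd).2 h7
          have h10 : (2 ^ j - r) + w0 ≡ (2 ^ j - r) + r [MOD 2 ^ j] :=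
            Nat.ModEq.add_left _ (Nat.mod_modEq w0 (2 ^ j)).symm
          have h11 : (2 ^ j - r) + r = 2 ^ j := by omega
          rw [h11] at h10
          have h12 : 2 ^ j ≡ 0 [MOD 2 ^ j] := (Nat.modEq_zero_iff_dvd).2 dvd_rfl
          exact h9.trans (h10.trans h12).symm
        exact Nat.ModEq.add_right_cancel' w0 h8
    have hd := Nat.div_add_mod w (2 ^ j)
    have hq : w / 2 ^ j < 2 := by
      rw [Nat.div_lt_iff_lt_mul hpos]
      omega
    rw [mem_insert, mem_insert, mem_insert, mem_singleton]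
    have hq' : w / 2 ^ j = 0 ∨ w / 2 ^ j = 1 := by
      generalize w / 2 ^ j = z at hq
      omega
    rcases hkey with h | h <;> rcases hq' with h' | h' <;> rw [h, h'] at hd <;> omega
  refine (card_le_card hsub).trans ?_
  exact card_le_four

theorem chi_eq_one {b h p w k : ℕ} (hp : p.Prime) (h2 : p ≠ 2) (hk : 0 < k)
    (hD : ¬ p ∣ b * h ^ 2) (hw : w ^ 2 ≡ b * h ^ 2 [MOD p ^ k]) : chi (b : ℤ) p = 1 := by
  have := Fact.mk hp
  have hodd : p % 2 = 1 := hp.eq_two_or_odd.resolve_left h2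
  unfold chi
  rw [if_pos hodd, ← jacobiSym.legendreSym.to_jacobiSym]
  have hh : ¬ p ∣ h := fun hd => hD ((hd.pow two_ne_zero).trans (dvd_mul_left _ _))
  have hb : ¬ p ∣ b := fun hd => hD (hd.trans (dvd_mul_right _ _))
  have h3 : ((h : ℤ) : ZMod p) ≠ 0 := by
    rw [Int.cast_natCast]
    intro h4
    exact hh ((ZMod.natCast_eq_zero_iff _ _).1 h4)
  have hb3 : ((b : ℤ) : ZMod p) ≠ 0 := by
    rw [Int.cast_natCast]
    intro h4
    exact hb ((ZMod.natCast_eq_zero_iff _ _).1 h4)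
  have h5 : legendreSym p b = 1 := by
    rw [legendreSym.eq_one_iff p hb3]
    have h6 : w ^ 2 ≡ b * h ^ 2 [MOD p] := hw.of_dvd (dvd_pow_self p hk.ne')
    have h7 := (ZMod.natCast_eq_natCast_iff _ _ _).2 h6
    push_cast at h7
    have h8 : (h : ZMod p) ≠ 0 := by simpa using h3
    refine ⟨(w : ZMod p) / (h : ZMod p), ?_⟩
    rw [Int.cast_natCast]
    field_simp
    rw [← h7]
  rw [h5]
  norm_num

theorem rho_odd_le (b h : ℕ) (e : ℕ) : 1 ≤ e → e % 2 = 1 → Nat.Coprime e (b * h ^ 2) →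
    (rho (b * h ^ 2) e : ℝ) ≤ F (b : ℤ) e := by
  induction e using Nat.recOnPosPrimePosCoprime with
  | prime_pow p n hp hn =>
    intro _ hodd hco
    rw [F_pow _ hp]
    have h2 : p ≠ 2 := by
      rintro rfl
      have : 2 ∣ 2 ^ n := dvd_pow_self 2 hn.ne'
      omega
    have hD : ¬ p ∣ b * h ^ 2 := by
      intro hd
      have h3 := Nat.Coprime.coprime_dvd_left (dvd_pow_self p hn.ne') hco
      have h4 := Nat.Coprime.coprime_dvd_right hd h3
      exact hp.one_lt.ne' (Nat.coprime_self p |>.1 h4)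
    by_cases hz : rho (b * h ^ 2) (p ^ n) = 0
    · rw [hz, Nat.cast_zero]
      exact geom_nonneg _ (abs_chi_le _ _) _
    · have hne : ((range (p ^ n)).filter (fun w => w ^ 2 ≡ b * h ^ 2 [MOD p ^ n])).Nonempty := by
        rw [← card_pos]
        unfold rho at hz
        omega
      obtain ⟨w, hw⟩ := hne
      rw [mem_rho] at hw
      rw [chi_eq_one hp h2 hn hD hw.2]
      have h5 := rho_pow_le_two (b * h ^ 2) hp h2 hD hn
      have h6 : (rho (b * h ^ 2) (p ^ n) : ℝ) ≤ 2 := by exact_mod_cast h5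
      have h7 : (1 : ℝ) ≤ n := by exact_mod_cast hn
      simp only [one_pow, sum_const, card_range, nsmul_eq_mul, mul_one]
      push_cast
      linarith
  | zero => intro h1; omega
  | one =>
    intro _ _ _
    rw [rho_one, F_one]
    norm_num
  | coprime a c ha hc hac iha ihc =>
    intro _ hodd hco
    have ho : a % 2 = 1 ∧ c % 2 = 1 := by
      rw [Nat.mul_mod] at hodd
      rcases Nat.mod_two_eq_zero_or_one a with h1 | h1 <;>
        rcases Nat.mod_two_eq_zero_or_one c with h2 | h2 <;> rw [h1, h2] at hodd <;> simp_all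
    have h1 := iha (by omega) ho.1 (Nat.Coprime.coprime_dvd_left (dvd_mul_right _ _) hco)
    have h2 := ihc (by omega) ho.2 (Nat.Coprime.coprime_dvd_left (dvd_mul_left _ _) hco)
    rw [F_coprime _ hac]
    have h3 : (rho (b * h ^ 2) (a * c) : ℝ) ≤ rho (b * h ^ 2) a * rho (b * h ^ 2) c := by
      exact_mod_cast rho_mul_le (b * h ^ 2) hac (by omega) (by omega)
    exact h3.trans (mul_le_mul h1 h2 (Nat.cast_nonneg _) (F_nonneg _ _))

theorem pf_RB : T_RB := by
  intro b h e _ _ _ he hco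
  have hd : 2 ^ e.factorization 2 * op e = e := by
    unfold op
    exact Nat.ordProj_mul_ordCompl_eq_self e 2
  have hop : op e ≠ 0 := by
    intro h0
    rw [h0, mul_zero] at hd
    omega
  have hopodd : op e % 2 = 1 := by
    have h1 : ¬ 2 ∣ op e := by
      unfold op
      exact Nat.not_dvd_ordCompl Nat.prime_two (by omega)
    omega
  have h3 : Nat.Coprime (2 ^ e.factorization 2) (op e) := by
    refine Nat.Coprime.pow_left _ ?_
    rw [Nat.coprime_two_left, Nat.odd_iff]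
    exact hopodd
  have h4 : rho (b * h ^ 2) e ≤ rho (b * h ^ 2) (2 ^ e.factorization 2) * rho (b * h ^ 2) (op e) := by
    have := rho_mul_le (b * h ^ 2) h3 (by positivity) (by omega)
    rwa [hd] at this
  have h5 : rho (b * h ^ 2) (2 ^ e.factorization 2) ≤ 4 := by
    refine rho_two_pow_le _ _ ?_
    by_cases hk : e.factorization 2 = 0
    · exact Or.inl hk
    · right
      have h6 : 2 ∣ e := by
        rw [← hd]
        exact (dvd_pow_self 2 hk).trans (dvd_mul_right _ _)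
      have h7 := Nat.Coprime.coprime_dvd_left h6 hco
      rw [Nat.coprime_two_left, Nat.odd_iff] at h7
      exact h7
  have h8 := rho_odd_le b h (op e) (by omega) hopodd
    (Nat.Coprime.coprime_dvd_left (Dvd.intro_left _ hd) hco)
  have h9 : (rho (b * h ^ 2) e : ℝ) ≤ 4 * rho (b * h ^ 2) (op e) := by
    have := h4.trans (Nat.mul_le_mul_right _ h5)
    exact_mod_cast this
  refine h9.trans ?_
  exact mul_le_mul_of_nonneg_left h8 (by norm_num)

end Pool.Agent.H1.PSQ
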