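import Pool.Agent.H1.PSQ.MUL
import Pool.Agent.H1.PSQ.LB

/-!
Board psq_modules (MP_669880_nt), row RC: the sum of the convolution of 1 and a character.
-/

set_option autoImplicit false

open Finset Pool.Agent.H34.PS

namespace Pool.Agent.H1.PSQ

theorem sum_swap (f : ℕ → ℝ) (y : ℕ) :
    ∑ e ∈ Icc 1 y, ∑ t ∈ e.divisors, f t = ∑ t ∈ Icc 1 y, ((y / t : ℕ) : ℝ) * f t := by
  have h1 : ∀ e ∈ Icc 1 y, ∑ t ∈ e.divisors, f t = ∑ t ∈ Icc 1 y, if t ∣ e then f t else 0 := by
    intro e he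
    rw [mem_Icc] at he
    rw [← sum_filter]
    refine sum_congr ?_ fun _ _ => rfl
    ext t
    rw [Nat.mem_divisors, mem_filter, mem_Icc]
    constructor
    · rintro ⟨h1, h2⟩
      exact ⟨⟨Nat.pos_of_dvd_of_pos h1 (by omega), (Nat.le_of_dvd (by omega) h1).trans he.2⟩, h1⟩
    · rintro ⟨_, h1⟩
      exact ⟨h1, by omega⟩
  rw [sum_congr rfl h1, sum_comm]
  refine sum_congr rfl fun t _ => ?_
  rw [← sum_filter, sum_const, nsmul_eq_mul]
  congr 2
  exact Nat.Ioc_filter_dvd_card_eq_div y t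

theorem F_sum_le (b y : ℕ) (hb : 1 ≤ b) (hper : ∀ n : ℕ, chi b (n + 4 * b) = chi b n)
    (h0 : ∑ n ∈ range (4 * b), chi b n = 0) :
    ∑ e ∈ Icc 1 y, F b e ≤ (y : ℝ) * (2 + Real.log (4 * b)) := by
  have h1 := sum_swap (chi (b : ℤ)) y
  unfold F
  rw [h1]
  have h2 : ∑ t ∈ Icc 1 y, ((y / t : ℕ) : ℝ) * chi b t =
      ∑ t ∈ range (4 * b + 1 + y), ((y / t : ℕ) : ℝ) * chi b t := by
    refine sum_subset ?_ ?_
    · intro t ht
      rw [mem_Icc] at ht
      rw [mem_range]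
      omega
    · intro t _ ht
      rw [mem_Icc] at ht
      by_cases h : t = 0
      · subst h
        simp
      · have h3 : y / t = 0 := Nat.div_eq_of_lt (by omega)
        rw [h3, Nat.cast_zero, zero_mul]
  rw [h2, sum_range_add]
  have hA : ∑ t ∈ range (4 * b + 1), ((y / t : ℕ) : ℝ) * chi b t ≤
      (y : ℝ) * (1 + Real.log (4 * b)) := by
    rw [sum_range_succ']
    have hz : ((y / 0 : ℕ) : ℝ) * chi b 0 = 0 := by simp
    rw [hz, add_zero]
    have h4 := sum_inv_le (4 * b)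
    push_cast at h4
    refine le_trans ?_ (mul_le_mul_of_nonneg_left h4 (Nat.cast_nonneg y))
    rw [mul_sum]
    refine sum_le_sum fun t _ => ?_
    calc ((y / (t + 1) : ℕ) : ℝ) * chi b (t + 1) ≤ ((y / (t + 1) : ℕ) : ℝ) * 1 :=
          mul_le_mul_of_nonneg_left (le_of_abs_le (abs_chi_le _ _)) (Nat.cast_nonneg _)
      _ = ((y / (t + 1) : ℕ) : ℝ) := mul_one _
      _ ≤ (y : ℝ) / ((t + 1 : ℕ) : ℝ) := Nat.cast_div_le
      _ = (y : ℝ) * (1 / ((t : ℝ) + 1)) := by
          push_cast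
          ring
  have hB : ∑ x ∈ range y, ((y / (4 * b + 1 + x) : ℕ) : ℝ) * chi b (4 * b + 1 + x) ≤ y := by
    have h5 := abel (fun i => ((y / (4 * b + 1 + i) : ℕ) : ℝ)) (fun i => chi b (4 * b + 1 + i))
      ?_ ?_ (4 * b : ℕ) ?_ y
    · refine h5.trans ?_
      simp only [add_zero]
      rw [← Nat.cast_mul]
      norm_cast
      calc y / (4 * b + 1) * (4 * b) ≤ y / (4 * b + 1) * (4 * b + 1) :=
            Nat.mul_le_mul_left _ (by omega)
        _ ≤ y := Nat.div_mul_le_self _ _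
    · intro n
      show ((y / (4 * b + 1 + (n + 1)) : ℕ) : ℝ) ≤ ((y / (4 * b + 1 + n) : ℕ) : ℝ)
      exact_mod_cast Nat.div_le_div_left (by omega) (by omega)
    · intro n
      exact Nat.cast_nonneg _
    · intro j
      exact le_of_abs_le (partial_sum (chi b) (4 * b) (by omega) (abs_chi_le _) hper h0 _ j)
  linarith

theorem odd_part_sum (f : ℕ → ℝ) (hf : ∀ n, 0 ≤ f n) (L : ℝ) (hL : 0 ≤ L)
    (h : ∀ y : ℕ, ∑ e ∈ Icc 1 y, f e ≤ (y : ℝ) * L) (y : ℕ) :
    ∑ e ∈ Icc 1 y, f (op e) ≤ 2 * (y : ℝ) * L := by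
  induction y using Nat.strong_induction_on with
  | _ y ih =>
    by_cases hy : y = 0
    · subst hy
      simp
    · have h1 : ∑ e ∈ Icc 1 y, f (op e) = ∑ e ∈ (Icc 1 y).filter (fun e => e % 2 = 1), f (op e) +
          ∑ e ∈ (Icc 1 y).filter (fun e => ¬ e % 2 = 1), f (op e) :=
        (sum_filter_add_sum_filter_not _ _ _).symm
      have h2 : ∑ e ∈ (Icc 1 y).filter (fun e => e % 2 = 1), f (op e) ≤ (y : ℝ) * L := by
        have h3 : ∑ e ∈ (Icc 1 y).filter (fun e => e % 2 = 1), f (op e) =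
            ∑ e ∈ (Icc 1 y).filter (fun e => e % 2 = 1), f e :=
          sum_congr rfl fun e he => by rw [op_odd (mem_filter.1 he).2]
        rw [h3]
        exact (sum_le_sum_of_subset_of_nonneg (filter_subset _ _) fun _ _ _ => hf _).trans (h y)
      have h4 : ∑ e ∈ (Icc 1 y).filter (fun e => ¬ e % 2 = 1), f (op e) =
          ∑ e ∈ Icc 1 (y / 2), f (op e) := by
        symm
        refine sum_bij (fun e _ => 2 * e) ?_ ?_ ?_ ?_
        · intro e he
          rw [mem_Icc] at he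
          rw [mem_filter, mem_Icc]
          omega
        · intro a _ c _ hac
          simpa using hac
        · intro e he
          rw [mem_filter, mem_Icc] at he
          exact ⟨e / 2, by rw [mem_Icc]; omega, by omega⟩
        · intro e he
          rw [mem_Icc] at he
          rw [op_two_mul (by omega)]
      have h5 := ih (y / 2) (by omega)
      rw [h1, h4]
      have h6 : (((y / 2 : ℕ) : ℝ)) * 2 ≤ (y : ℝ) := by
        exact_mod_cast Nat.div_mul_le_self y 2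
      nlinarith

theorem pf_RC (hJM : T_JM) : T_RC := by
  intro b hb hsq
  obtain ⟨_, _, _, _, hper, h0⟩ := hJM b (b : ℤ) (Or.inl ⟨hb, hsq, Or.inl rfl⟩)
  have h1 : ∀ y : ℕ, ∑ e ∈ Icc 1 y, F b e ≤ (y : ℝ) * (2 + Real.log (4 * b)) := fun y =>
    F_sum_le b y (by omega) hper h0
  refine ⟨fun e => F_nonneg b e, h1, ?_⟩
  have hL : (0 : ℝ) ≤ 2 + Real.log (4 * b) := by
    have : 0 ≤ Real.log (4 * (b : ℝ)) := Real.log_nonneg (by
      have : (2 : ℝ) ≤ b := by exact_mod_cast hb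
      linarith)
    linarith
  exact odd_part_sum (F b) (F_nonneg b) _ hL h1

end Pool.Agent.H1.PSQ
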